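import Pool.Agent.W743.HP.Stm
/-! Project HP (MP_8f331d_an): operators on `ℓ¹` whose columns tend to zero are compact (S_CPT). -/
set_option autoImplicit false
open Set Filter Topology

namespace Pool.Agent.W961.HP
open Pool.Agent.W743.HP

theorem cpt : S_CPT := by
  intro ι Y _ _ _ φ C h hφ
  classical
  have hmem : lift φ C h ∈ closure {f : L1 ι →L[ℝ] Y | IsCompactOperator f} := by
    rw [Metric.mem_closure_iff]
    intro ε hε
    have hfin : {i | ¬ ‖φ i‖ < ε / 2}.Finite := by
      have h1 := (Metric.tendsto_nhds.1 hφ) (ε / 2) (by positivity)
      rw [Filter.eventually_cofinite] at h1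
      simpa using h1
    set s := hfin.toFinset with hs
    have hev : ∀ i j : ι, ‖(if j = i then (1 : ℝ) else 0)‖ ≤ 1 := by
      intro i j; split <;> simp
    have hsum : ∀ i : ι, ‖(if i ∈ s then φ i else 0)‖ ≤ C := by
      intro i
      split
      · exact h i
      · rw [norm_zero]; exact (norm_nonneg _).trans (h i)
    refine ⟨∑ i ∈ s, (lift (fun j => if j = i then (1 : ℝ) else 0) 1 (hev i)).smulRight (φ i), ?_, ?_⟩
    · have : ∑ i ∈ s, (lift (fun j => if j = i then (1 : ℝ) else 0) 1 (hev i)).smulRight (φ i)
          ∈ compactOperator (RingHom.id ℝ) (L1 ι) Y := by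
        refine Submodule.sum_mem _ (fun i _ => ?_)
        show IsCompactOperator _
        have h2 : IsCompactOperator (lift (fun j => if j = i then (1 : ℝ) else 0) 1 (hev i)) :=
          isCompactOperator_of_locallyCompactSpace_dom _
        exact h2.clm_comp (ContinuousLinearMap.toSpanSingleton ℝ (φ i))
      exact this
    · have hb : ∀ i, ‖(if i ∈ s then 0 else φ i)‖ ≤ ε / 2 := by
        intro i
        split
        · rw [norm_zero]; positivity
        · next hi =>
          by_contra hcon
          apply hi
          rw [hs, Set.Finite.mem_toFinset]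
          intro h3
          exact hcon h3.le
      have e : lift φ C h - ∑ i ∈ s, (lift (fun j => if j = i then (1 : ℝ) else 0) 1
          (hev i)).smulRight (φ i) = lift (fun i => if i ∈ s then 0 else φ i) (ε / 2) hb := by
        apply L1.ext_ue
        intro k
        rw [ContinuousLinearMap.sub_apply, ContinuousLinearMap.sum_apply, lift_ue, lift_ue]
        simp only [ContinuousLinearMap.smulRight_apply, lift_ue]
        by_cases hk : k ∈ s
        · rw [Finset.sum_eq_single k]
          · simp [hk]
          · intro b _ hb; simp [hb.symm]
          · intro hk'; exact absurd hk hk'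
        · rw [Finset.sum_eq_zero]
          · simp [hk]
          · intro b hb
            have : k ≠ b := fun hkb => hk (hkb ▸ hb)
            simp [this]
      rw [dist_eq_norm, e]
      exact (norm_lift_le _ _ (by positivity) hb).trans_lt (by linarith)
  rw [isClosed_setOfPred_isCompactOperator.closure_eq] at hmem
  exact hmem

end Pool.Agent.W961.HP
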